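import Mathlib
import Pool.Agent.H79.SymH

set_option autoImplicit false

open Pool.Agent.H79 Pool.Agent.H79.DepthDefs Pool.Agent.H79.SymDefs in
theorem Pool.Agent.Results.MP_b90300_al.SymDepth.result (K : Type) [Field K] (φ : ℕ → ℕ)
    (hpos : ∀ t, 1 ≤ t → 1 ≤ φ t)
    (hper : ∃ p t0 : ℕ, 1 ≤ p ∧ 1 ≤ t0 ∧ ∀ t, t0 ≤ t → φ (t + p) = φ t) :
    ∃ (n : ℕ) (s : Set (Fin n →₀ ℕ)), ∀ t, 1 ≤ t →
      HasDepth (symPow (Ideal.span ((fun e => MvPolynomial.monomial e (1 : K)) '' s)) t) (φ t) := by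
  obtain ⟨p, t0, hp, ht0, hg⟩ := hper
  obtain ⟨π, rfl, rfl⟩ := SymD.exists_par t0 p ht0 hp
  obtain ⟨m, hm⟩ := SymF.exists_bound π hg
  let 𝓕 := SymH.fam (d := m) finProdFinEquiv π φ
  refine ⟨_, 𝓕.Q, fun t ht => ?_⟩
  have : symPow (Mono.MI K 𝓕.Q) t = Mono.MI K (𝓕.W t) :=
    Ideal.ext fun f => by rw [SymG.mem_symPow, 𝓕.symb]
  rw [this]
  exact SymH.depth _ π φ hg t ht (hpos t ht) (by have := hm t ht; omega)
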